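import Mathlib
import Pool.Agent.V7H81.LW.Zet

/-!
# `ζ(3)` and the tails of its triple integral at all algebraic points, over the field of all exponentials

Let `E` be the subfield of `ℂ` which is generated by all algebraic numbers and all numbers `exp α`, `α` algebraic. By
the theorem of Lindemann and Weierstrass it has infinite transcendence degree.

For an integer `k ≥ 2` let `ω = exp (2 π i / k)`. For a positive real number `x` let `C_k(x)` be the number
`(-1)^k / k! * ∫ (∑_j ω^j log t_j)^k exp (-∑_j t_j) dt`, the integral being over the cube `(0, x)^k`, and let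
`R_k(x)` be the same integral over the rest `(0, ∞)^k \ (0, x)^k` of the octant.

(1) `C_k(x)` and `R_k(x)` are real, and `ζ(k) = C_k(x) + R_k(x)`. For `k = 3`,
`R_3(x) = 1/12 * ∫ log(t_1 t_2 / t_3²)³ exp (-t_1 - t_2 - t_3) dt`, the integral being over the points of the
positive octant with `max t_i ≥ x`.

(2) The numbers `C_k(x)` (`k ≥ 2`, `x` real, positive and algebraic) are algebraically independent over `E`.

(3) At most one of the numbers `ζ(3)` and `R_3(x)` (`x` real, positive and algebraic) is algebraic over `E`; in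
particular at most one of them is algebraic. If `ζ(3)` is algebraic over `E` (for instance algebraic), then
the numbers `R_3(x)` (`x` real, positive and algebraic) are algebraically independent over `E`.

(4) Let `y_1, …, y_r` be complex numbers and `K` a set of integers `k ≥ 2` for which `ζ(k)` is algebraic over
`E(y_1, …, y_r)`. At most `r` of the numbers `y_1, …, y_r` and `R_k(x)` (`k ∈ K`, `x` real, positive and algebraic) are
algebraic over `E`, and for all finite sets `S` of pairs `(k, x)` of this kind the field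
`E(y_1, …, y_r, R_k(x) : (k, x) ∈ S)` has transcendence degree at least `|S|` over `E`.

(5) For `c ≥ 0` at most `c + 1` of the numbers `π, ζ(3), ζ(5), …, ζ(2c+1)` and `R_k(x)` (`k ≥ 2`, `k` even or
`k ≤ 2c + 1`, `x` real, positive and algebraic) are algebraic over `E`.

(6) The values `E_l(z) = ∑_{n ≥ 1} (-1)^(n+1) z^n / (n! n^l)` (`l ≥ 1`, `z ≠ 0` an algebraic complex number) are
algebraically independent over `E`.

For rational `x` and the field `ℚ(e)` in place of `E`, (1) to (5) are known (`IncompleteZetaValues`). The proof contains a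
proof of the theorem of Lindemann and Weierstrass and of the theorem of Siegel and Shidlovskii for the functions
`exp (α z)` and `E_l(α z)`: algebraic independence of the functions over `K(z)`, `K` a field of characteristic `0`
(`Pool.Agent.V7H81.LW.AI_vf`), conjugation (the norm of a linear combination of monomials in these functions is a
power series with rational coefficients) and the linear independence of the values of E-functions with rational
coefficients (`Pool.Agent.R352.E.E_lin`).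
-/

set_option autoImplicit false

namespace Pool.Agent.Results.MP_48b3e2_nt.AlgebraicPointsH81

open Set MeasureTheory

/-- the field of algebraic numbers, inside `ℂ` -/
noncomputable abbrev Qbar : IntermediateField ℚ ℂ := algebraicClosure ℚ ℂ

/-- the field `E` generated by the algebraic numbers and their exponentials -/
noncomputable abbrev E : IntermediateField Qbar ℂ :=
  IntermediateField.adjoin Qbar (range fun α : Qbar => Complex.exp (α : ℂ))

/-- the zeta value `ζ(s) = ∑ 1 / n^s` -/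
noncomputable def zeta (s : ℕ) : ℝ := ∑' n : ℕ, 1 / ((n : ℝ) + 1) ^ s

/-- `ω = exp (2 π i / k)` -/
noncomputable def root (k : ℕ) : ℂ := Complex.exp (2 * Real.pi * Complex.I / k)

/-- `(∑_j ω^j log t_j)^k exp (-∑_j t_j)` -/
noncomputable def integrand (k : ℕ) (t : Fin k → ℝ) : ℂ :=
  (∑ j : Fin k, root k ^ (j : ℕ) * (Real.log (t j) : ℂ)) ^ k * ((Real.exp (-∑ j, t j) : ℝ) : ℂ)

/-- the open cube `(0, x)^k` -/
def cube (k : ℕ) (x : ℝ) : Set (Fin k → ℝ) := {t | ∀ j, 0 < t j ∧ t j < x}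

/-- `(0, ∞)^k \ (0, x)^k` -/
def rest (k : ℕ) (x : ℝ) : Set (Fin k → ℝ) := {t | (∀ j, 0 < t j) ∧ ∃ j, x ≤ t j}

/-- `C_k(x)` -/
noncomputable def C (k : ℕ) (x : ℝ) : ℂ := (-1) ^ k / k.factorial * ∫ t in cube k x, integrand k t

/-- `R_k(x)` -/
noncomputable def R (k : ℕ) (x : ℝ) : ℂ := (-1) ^ k / k.factorial * ∫ t in rest k x, integrand k t

/-- the values `E_l(z) = ∑_{n ≥ 1} (-1)^(n+1) z^n / (n! n^l)` -/
noncomputable def EV (l : ℕ) (z : ℂ) : ℂ := ∑' n : ℕ, if n = 0 then 0 else (-1) ^ (n + 1) * z ^ n / (n.factorial * (n : ℂ) ^ l)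

/-- `z` is algebraic over `E(y_1, …, y_r)` -/
def AlgebraicOverAnd {r : ℕ} (y : Fin r → ℂ) (z : ℂ) : Prop := IsAlgebraic (IntermediateField.adjoin E (range y)) z

/-- the set of names of those of the numbers `y_1, …, y_r` and `R_k(x)` (`k ∈ K`, `x` real, positive and algebraic)
which are algebraic over `E` -/
def algebraicNames {r : ℕ} (y : Fin r → ℂ) (K : Set ℕ) : Set (Fin r ⊕ (ℕ × ℝ)) :=
  {i | Sum.elim (fun j => IsAlgebraic E (y j))
    (fun p => p.1 ∈ K ∧ 0 < p.2 ∧ IsAlgebraic ℚ p.2 ∧ IsAlgebraic E (R p.1 p.2)) i}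

/-- the names of those of the numbers `ζ(3)` and `R_3(x)` (`x` real, positive and algebraic) which are algebraic
over `E` -/
def namesThree : Set (Option ℝ) :=
  {o | o.elim (IsAlgebraic E ((zeta 3 : ℝ) : ℂ)) fun x => 0 < x ∧ IsAlgebraic ℚ x ∧ IsAlgebraic E (R 3 x)}

/-- the numbers `π, ζ(3), ζ(5), …, ζ(2c+1)` -/
noncomputable def constants (c : ℕ) : Fin (c + 1) → ℂ :=
  Fin.cons (Real.pi : ℂ) fun i : Fin c => ((zeta (2 * i + 3) : ℝ) : ℂ)

theorem cube_eq (k : ℕ) (x : ℝ) : cube k x = Pool.Agent.R352.Q.cube k (Ioo 0 x) := by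
  ext t
  simp [cube, Pool.Agent.R352.Q.cube]

theorem rest_eq (k : ℕ) (x : ℝ) :
    rest k x = Pool.Agent.R352.Q.cube k (Ioi 0) \ Pool.Agent.R352.Q.cube k (Ioo 0 x) := by
  ext t
  simp only [rest, Pool.Agent.R352.Q.cube, mem_sdiff, mem_univ_pi, mem_Ioi, mem_Ioo]
  constructor
  · rintro ⟨h1, j, h2⟩
    exact ⟨h1, fun h => absurd (h j).2 (not_lt.2 h2)⟩
  · rintro ⟨h1, h2⟩
    push Not at h2
    obtain ⟨j, hj⟩ := h2
    exact ⟨h1, j, hj (h1 j)⟩

theorem C_eq {k : ℕ} (hk : 2 ≤ k) {x : ℝ} (hx : 0 < x) : C k x = ((Pool.Agent.R352.Q.Zk k x : ℝ) : ℂ) := by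
  rw [← Pool.Agent.R352.Q.NI_box hk hx, C, cube_eq]
  rfl

theorem R_eq {k : ℕ} (hk : 2 ≤ k) {x : ℝ} (hx : 0 < x) : R k x = ((Pool.Agent.R352.Q.Rk k x : ℝ) : ℂ) := by
  have h : R k x = Pool.Agent.R352.Q.NI k
      (Pool.Agent.R352.Q.cube k (Ioi 0) \ Pool.Agent.R352.Q.cube k (Ioo 0 x)) := by
    rw [R, rest_eq]
    rfl
  rw [h, Pool.Agent.R352.Q.NI_diff, Pool.Agent.R352.Q.NI_full hk, Pool.Agent.R352.Q.NI_box hk hx, Pool.Agent.R352.Q.Rk]
  push_cast
  rfl

theorem main {r : ℕ} (y : Fin r → ℂ) (K : Set ℕ) (hK : ∀ k ∈ K, 2 ≤ k ∧ AlgebraicOverAnd y ((zeta k : ℝ) : ℂ)) :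
    (algebraicNames y K).encard ≤ (r : ℕ∞) := by
  refine Pool.Agent.R352.E.encard_le_of_finset _ _ fun t ht => ?_
  refine Pool.Agent.V7H81.LW.countRc y t (fun i hi => ?_) (fun p hp => ?_)
  · have h1 := ht hi
    cases i with
    | inl j => exact Pool.Agent.V7H81.LW.mem_clF_empty.2 h1
    | inr p =>
      obtain ⟨h2, h3, -, h4⟩ := h1
      rw [R_eq (hK _ h2).1 h3] at h4
      exact Pool.Agent.V7H81.LW.mem_clF_empty.2 h4
  · obtain ⟨h2, h3, h4, -⟩ := ht hp
    exact ⟨(hK _ h2).1, h3, h4, Pool.Agent.V7H81.LW.mem_clF.2 (hK _ h2).2⟩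

theorem main_trdeg {r : ℕ} (y : Fin r → ℂ) (K : Set ℕ) (hK : ∀ k ∈ K, 2 ≤ k ∧ AlgebraicOverAnd y ((zeta k : ℝ) : ℂ))
    (S : Finset (ℕ × ℝ)) (hS : ∀ p ∈ S, p.1 ∈ K ∧ 0 < p.2 ∧ IsAlgebraic ℚ p.2) :
    (S.card : Cardinal) ≤ Algebra.trdeg E (IntermediateField.adjoin E
      (range y ∪ (fun p : ℕ × ℝ => R p.1 p.2) '' (S : Set (ℕ × ℝ)))) := by
  have h := Pool.Agent.V7H81.LW.trdegRc y S fun p hp =>
    ⟨(hK _ (hS p hp).1).1, (hS p hp).2.1, (hS p hp).2.2, Pool.Agent.V7H81.LW.mem_clF.2 (hK _ (hS p hp).1).2⟩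
  have e : (fun p : ℕ × ℝ => R p.1 p.2) '' (S : Set (ℕ × ℝ)) =
      (fun p : ℕ × ℝ => ((Pool.Agent.R352.Q.Rk p.1 p.2 : ℝ) : ℂ)) '' (S : Set (ℕ × ℝ)) := by
    refine image_congr fun p hp => ?_
    have := hS p hp
    exact R_eq (hK _ this.1).1 this.2.1
  rw [e]
  exact h

theorem three_count : namesThree.encard ≤ 1 := by
  have h := main (fun _ : Fin 1 => ((zeta 3 : ℝ) : ℂ)) {3} (by
    rintro k rfl
    exact ⟨by norm_num, Pool.Agent.V7H81.LW.mem_clF.1 (Pool.Agent.V7H81.LW.subset_clF _ ⟨0, rfl⟩)⟩)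
  let f : Option ℝ → Fin 1 ⊕ (ℕ × ℝ) := fun o => o.elim (Sum.inl 0) fun x => Sum.inr (3, x)
  have hf : Function.Injective f := by
    intro a b hab
    cases a <;> cases b <;> simp_all [f]
  have h2 : f '' namesThree ⊆ algebraicNames (fun _ : Fin 1 => ((zeta 3 : ℝ) : ℂ)) {3} := by
    rintro _ ⟨o, ho, rfl⟩
    cases o with
    | none => exact ho
    | some x => exact ⟨rfl, ho.1, ho.2.1, ho.2.2⟩
  calc namesThree.encard = (f '' namesThree).encard := (hf.encard_image _).symm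
    _ ≤ _ := encard_le_encard h2
    _ ≤ 1 := by exact_mod_cast h

theorem three_indep (h : IsAlgebraic E ((zeta 3 : ℝ) : ℂ)) :
    AlgebraicIndependent E (fun x : {x : ℝ // 0 < x ∧ IsAlgebraic ℚ x} => R 3 x) := by
  have h1 := Pool.Agent.V7H81.LW.AI_Rc {3} (by
    rintro k rfl
    exact ⟨by norm_num, Pool.Agent.V7H81.LW.mem_clF_empty.2 h⟩)
  have h2 := h1.comp (fun x : {x : ℝ // 0 < x ∧ IsAlgebraic ℚ x} => ⟨(3, x), rfl, x.2⟩) (by
    intro a b hab
    simp only [Subtype.mk.injEq, Prod.mk.injEq, true_and] at hab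
    exact Subtype.ext hab)
  convert h2 using 1
  ext x
  exact R_eq (by norm_num) x.2.1

theorem constants_mem {c k : ℕ} (hk : 2 ≤ k) (h : Even k ∨ k ≤ 2 * c + 1) :
    AlgebraicOverAnd (constants c) ((zeta k : ℝ) : ℂ) := by
  refine Pool.Agent.V7H81.LW.mem_clF.1 ?_
  have hpi : (Real.pi : ℂ) ∈ Pool.Agent.V7H81.LW.clF E (range (constants c)) :=
    Pool.Agent.V7H81.LW.subset_clF _ ⟨0, rfl⟩
  rcases Nat.even_or_odd' k with ⟨j, rfl | rfl⟩
  · have hj : j ≠ 0 := by omega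
    have h1 := hasSum_zeta_nat hj
    have h2 : zeta (2 * j) = (-1 : ℝ) ^ (j + 1) * (2 : ℝ) ^ (2 * j - 1) * Real.pi ^ (2 * j) *
        bernoulli (2 * j) / (2 * j).factorial := by
      rw [← h1.tsum_eq, zeta]
      have hs : Summable (fun n : ℕ => 1 / (n : ℝ) ^ (2 * j)) := h1.summable
      rw [← hs.sum_add_tsum_nat_add 1]
      simp only [Finset.sum_range_succ, Finset.sum_range_zero, zero_add]
      have h0 : (0 : ℝ) ^ (2 * j) = 0 := zero_pow (by omega)
      rw [Nat.cast_zero, h0, div_zero, zero_add]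
      refine tsum_congr fun n => ?_
      push_cast
      rfl
    have h3 : ((zeta (2 * j) : ℝ) : ℂ) = ((((-1) ^ (j + 1) * 2 ^ (2 * j - 1) * bernoulli (2 * j) /
        (2 * j).factorial : ℚ)) : ℂ) * (Real.pi : ℂ) ^ (2 * j) := by
      rw [h2]
      push_cast
      ring
    rw [h3]
    exact Subfield.mul_mem _ (SubfieldClass.ratCast_mem _ _) (Subfield.pow_mem _ hpi _)
  · have h1 : 2 * j + 1 ≤ 2 * c + 1 := by
      rcases h with h | h
      · exact absurd h (by simp)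
      · exact h
    refine Pool.Agent.V7H81.LW.subset_clF _ ⟨Fin.succ ⟨j - 1, by omega⟩, ?_⟩
    simp only [constants, Fin.cons_succ]
    have h2 : 2 * (j - 1) + 3 = 2 * j + 1 := by omega
    rw [h2]

theorem EV_eq (l : ℕ) (z : ℂ) : EV l z = Pool.Agent.V7H81.LW.Ec l z := by
  rw [EV, Pool.Agent.V7H81.LW.Ec]
  refine tsum_congr fun n => ?_
  split_ifs
  · rfl
  · rw [neg_pow z n, pow_succ]
    ring

theorem values : AlgebraicIndependent E (fun p : {p : ℕ × ℂ // 1 ≤ p.1 ∧ p.2 ≠ 0 ∧ IsAlgebraic ℚ p.2} =>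
    EV p.1.1 p.1.2) := by
  let g : {p : ℕ × ℂ // 1 ≤ p.1 ∧ p.2 ≠ 0 ∧ IsAlgebraic ℚ p.2} → ℕ × Qbarˣ := fun p =>
    (p.1.1 - 1, Units.mk0 (⟨p.1.2, mem_algebraicClosure_iff.2 p.2.2.2⟩ : Qbar) fun h => p.2.2.1 (congrArg Subtype.val h))
  have hg : Function.Injective g := by
    intro p q h
    have h1 : p.1.1 - 1 = q.1.1 - 1 := congrArg Prod.fst h
    have h2 : p.1.2 = q.1.2 := congrArg (fun u : ℕ × Qbarˣ => ((u.2 : Qbar) : ℂ)) h
    have h3 := p.2.1
    have h4 := q.2.1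
    exact Subtype.ext (Prod.ext (by omega) h2)
  have h := Pool.Agent.V7H81.LW.AI_EX.comp g hg
  convert h using 1
  ext p
  have h3 := p.2.1
  rw [EV_eq, Function.comp_apply, Pool.Agent.V7H81.LW.cv]
  have h5 : (g p).1 + 1 = p.1.1 := by
    show p.1.1 - 1 + 1 = p.1.1
    omega
  rw [h5]
  rfl

/-- **`ζ(3)` and the tails of its triple integral at algebraic points, over the field of all exponentials** -/
theorem result :
    -- (1)
    ((∀ k : ℕ, 2 ≤ k → ∀ x : ℝ, 0 < x →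
        (C k x).im = 0 ∧ (R k x).im = 0 ∧ ((zeta k : ℝ) : ℂ) = C k x + R k x) ∧
      ∀ x : ℝ, 0 < x → R 3 x =
        ((1 / 12 * ∫ t in rest 3 x, Real.log (t 0 * t 1 / t 2 ^ 2) ^ 3 * Real.exp (-(t 0 + t 1 + t 2)) : ℝ) : ℂ)) ∧
    -- (2)
    AlgebraicIndependent E (fun p : {p : ℕ × ℝ // 2 ≤ p.1 ∧ 0 < p.2 ∧ IsAlgebraic ℚ p.2} => C p.1.1 p.1.2) ∧
    -- (3)
    (namesThree.encard ≤ 1 ∧ (IsAlgebraic E ((zeta 3 : ℝ) : ℂ) →
      AlgebraicIndependent E (fun x : {x : ℝ // 0 < x ∧ IsAlgebraic ℚ x} => R 3 x))) ∧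
    -- (4)
    (∀ (r : ℕ) (y : Fin r → ℂ) (K : Set ℕ), (∀ k ∈ K, 2 ≤ k ∧ AlgebraicOverAnd y ((zeta k : ℝ) : ℂ)) →
      (algebraicNames y K).encard ≤ (r : ℕ∞) ∧
      ∀ S : Finset (ℕ × ℝ), (∀ p ∈ S, p.1 ∈ K ∧ 0 < p.2 ∧ IsAlgebraic ℚ p.2) →
        (S.card : Cardinal) ≤ Algebra.trdeg E (IntermediateField.adjoin E
          (range y ∪ (fun p : ℕ × ℝ => R p.1 p.2) '' (S : Set (ℕ × ℝ))))) ∧
    -- (5)
    (∀ c : ℕ, (algebraicNames (constants c) {k | 2 ≤ k ∧ (Even k ∨ k ≤ 2 * c + 1)}).encard ≤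
      ((c + 1 : ℕ) : ℕ∞)) ∧
    -- (6)
    AlgebraicIndependent E (fun p : {p : ℕ × ℂ // 1 ≤ p.1 ∧ p.2 ≠ 0 ∧ IsAlgebraic ℚ p.2} => EV p.1.1 p.1.2) := by
  refine ⟨⟨fun k hk x hx => ⟨?_, ?_, ?_⟩, fun x hx => ?_⟩, ?_, ⟨three_count, three_indep⟩,
    fun r y K hK => ⟨main y K hK, main_trdeg y K hK⟩, fun c => ?_, values⟩
  · rw [C_eq hk hx, Complex.ofReal_im]
  · rw [R_eq hk hx, Complex.ofReal_im]
  · rw [C_eq hk hx, R_eq hk hx, Pool.Agent.R352.Q.Rk, zeta, Pool.Agent.R352.E.zt]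
    push_cast
    ring
  · rw [rest_eq, Pool.Agent.R352.Q.three_rest hx, R_eq (by norm_num) hx]
    congr 1
    ring
  · have h := Pool.Agent.V7H81.LW.AI_Zc
    convert h using 1
    ext p
    exact C_eq p.2.1 p.2.2.1
  · exact main (constants c) _ fun k hk => ⟨hk.1, constants_mem hk.1 hk.2⟩

end Pool.Agent.Results.MP_48b3e2_nt.AlgebraicPointsH81
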