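import Mathlib
import Pool.Agent.V7H73.XI.U
import Pool.Agent.R352.Q.Three

set_option autoImplicit false

/-!
# Exponential deformations of `ζ(3)`

For an integer `k ≥ 2` and a real number `y` let
`F_k(y) = 1 / (k-1)! * ∫_0^∞ exp (-y (1 - e^(-t))) t^(k-1) / (e^t - 1) dt`, so that `F_k(0) = ζ(k)` and
`F_3(y) = 1/2 * ∫_0^∞ exp (-y (1 - e^(-t))) t² / (e^t - 1) dt`; this is the entire function
`e^(-y) ∑_N y^N / N! ∑_{n > N} 1 / n^k`. For positive rational `x` let `R_k(x)` be the incomplete zeta value of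
`IncompleteZetaValues` (the part of a `k`-fold integral for `ζ(k)` over the complement of the cube
`(0, x)^k`), and let `L(y) = ∑_{m ≥ 1} y^m / (m! m)`, and `K_0` the field generated by `e` and the numbers `L(y)`,
`y ≠ 0` rational.

(1) `F_k(0) = ζ(k)`, and the expansion of `F_k(y)`.

(2) The numbers `e`, `L(y)`, `ζ(k) - F_k(y)` (`k ≥ 2`, `y ≠ 0` rational) and `ζ(k) - R_k(x)` (`k ≥ 2`, `x` positive
rational) are algebraically independent over `ℚ`.

(3) At most one of the numbers `ζ(3) = F_3(0)`, `F_3(y)` (`y ≠ 0` rational), `R_3(x)` (`x` positive rational) is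
algebraic over `K_0`. If `ζ(3)` is algebraic over `K_0`, all the numbers `e`, `L(y)`, `F_3(y)` (`y ≠ 0` rational) and
`R_3(x)` (`x` positive rational) are algebraically independent over `ℚ`.

(4) Let `y_1, …, y_r` be real numbers and `K` a set of integers `k ≥ 2` for which `ζ(k)` is algebraic over
`K_0(y_1, …, y_r)`. At most `r` of the numbers `y_1, …, y_r`, `F_k(y)`, `R_k(x)` (`k ∈ K`) are algebraic over
`K_0`, and for a finite set `S` of names of the numbers `F_k(y)`, `R_k(x)` (`k ∈ K`) the field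
`K_0(y_1, …, y_r, S)` has transcendence degree at least `|S|` over `K_0`.

(5) For `c ≥ 0` at most `c + 1` of the numbers `π, ζ(3), ζ(5), …, ζ(2c+1)` and `F_k(y)`, `R_k(x)` (`k` even or
`k ≤ 2c + 1`) are algebraic over `K_0`.

(6) Let `K_1` be the field generated by `e` and all the numbers `∑_{m ≥ 1} y^m / (m! m^j)` (`j ≥ 1`, `y ≠ 0` rational).
The numbers `ζ(k) - F_k(x)` (`k ≥ 2`, `x` positive rational) are algebraically independent over `K_1`, and at most one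
of the numbers `F_3(x)`, `x ≥ 0` rational, is algebraic over `K_1`.
-/

namespace Pool.Agent.Results.MP_48b3e2_nt.ExponentialDeformationsH73

open Set MeasureTheory

/-- the zeta value `ζ(s) = ∑ 1 / n^s` -/
noncomputable def zeta (s : ℕ) : ℝ := ∑' n : ℕ, 1 / ((n : ℝ) + 1) ^ s

/-- `F_k(y) = 1 / (k-1)! * ∫_0^∞ exp (-y (1 - e^(-t))) t^(k-1) / (e^t - 1) dt` -/
noncomputable def F (k : ℕ) (y : ℝ) : ℝ :=
  1 / (k - 1).factorial * ∫ t in Ioi (0 : ℝ), Real.exp (-(y * (1 - Real.exp (-t)))) * t ^ (k - 1) / (Real.exp t - 1)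

/-- `ω = exp (2 π i / k)` -/
noncomputable def root (k : ℕ) : ℂ := Complex.exp (2 * Real.pi * Complex.I / k)

/-- `(∑_j ω^j log t_j)^k exp (-∑_j t_j)` -/
noncomputable def integrand (k : ℕ) (t : Fin k → ℝ) : ℂ :=
  (∑ j : Fin k, root k ^ (j : ℕ) * (Real.log (t j) : ℂ)) ^ k * ((Real.exp (-∑ j, t j) : ℝ) : ℂ)

/-- `(0, ∞)^k \ (0, x)^k` -/
def rest (k : ℕ) (x : ℝ) : Set (Fin k → ℝ) := {t | (∀ j, 0 < t j) ∧ ∃ j, x ≤ t j}

/-- `R_k(x) = (-1)^k / k! * ∫ (∑_j ω^j log t_j)^k exp (-∑_j t_j) dt` over `(0, ∞)^k \ (0, x)^k` (a real number) -/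
noncomputable def R (k : ℕ) (x : ℝ) : ℝ := ((-1) ^ k / k.factorial * ∫ t in rest k x, integrand k t).re

/-- `L_j(y) = ∑_{m ≥ 1} y^m / (m! m^j)` -/
noncomputable def L (j : ℕ) (y : ℝ) : ℝ := ∑' m : ℕ, y ^ (m + 1) / ((m + 1).factorial * ((m : ℝ) + 1) ^ j)

/-- the field generated by `e` and the numbers `L_1(y)`, `y ≠ 0` rational -/
noncomputable def K₀ : IntermediateField ℚ ℝ :=
  IntermediateField.adjoin ℚ ({Real.exp 1} ∪ {z | ∃ y : ℚ, y ≠ 0 ∧ z = L 1 y})

/-- the field generated by `e` and the numbers `L_j(y)`, `j ≥ 1`, `y ≠ 0` rational -/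
noncomputable def K₁ : IntermediateField ℚ ℝ :=
  IntermediateField.adjoin ℚ ({Real.exp 1} ∪ {z | ∃ (j : ℕ) (y : ℚ), 1 ≤ j ∧ y ≠ 0 ∧ z = L j y})

/-- the names of the numbers `F_k(y)`, `k ≥ 2`, `y ≠ 0`, and `R_k(x)`, `k ≥ 2`, `x > 0` -/
abbrev Name : Type := {p : ℕ × ℚ // 2 ≤ p.1 ∧ p.2 ≠ 0} ⊕ {p : ℕ × ℚ // 2 ≤ p.1 ∧ 0 < p.2}

/-- the index `k` of the number -/
def weight : Name → ℕ := Sum.elim (fun p => p.1.1) (fun p => p.1.1)

/-- the numbers `F_k(y)` and `R_k(x)` -/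
noncomputable def value : Name → ℝ := Sum.elim (fun p => F p.1.1 p.1.2) (fun p => R p.1.1 p.1.2)

/-- the numbers `π, ζ(3), ζ(5), …, ζ(2c+1)` -/
noncomputable def constants (c : ℕ) : Fin (c + 1) → ℝ := Fin.cons Real.pi fun i : Fin c => zeta (2 * i + 3)

theorem rest_eq (k : ℕ) (x : ℝ) :
    rest k x = Pool.Agent.R352.Q.cube k (Ioi 0) \ Pool.Agent.R352.Q.cube k (Ioo 0 x) := by
  ext t
  simp only [rest, Pool.Agent.R352.Q.cube, mem_sdiff, mem_univ_pi, mem_Ioi, mem_Ioo]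
  constructor
  · rintro ⟨h1, j, h2⟩
    exact ⟨h1, fun h => absurd (h j).2 (not_lt.2 h2)⟩
  · rintro ⟨h1, h2⟩
    push Not at h2
    obtain ⟨j, hj⟩ := h2
    exact ⟨h1, j, hj (h1 j)⟩

theorem R_eq {k : ℕ} (hk : 2 ≤ k) {x : ℚ} (hx : 0 < x) : R k x = Pool.Agent.R352.Q.Rk k x := by
  have hx' : (0 : ℝ) < x := by exact_mod_cast hx
  have h : (-1) ^ k / k.factorial * ∫ t in rest k x, integrand k t = Pool.Agent.R352.Q.NI k
      (Pool.Agent.R352.Q.cube k (Ioi 0) \ Pool.Agent.R352.Q.cube k (Ioo 0 x)) := by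
    rw [rest_eq]
    rfl
  rw [R, h, Pool.Agent.R352.Q.NI_diff, Pool.Agent.R352.Q.NI_full hk, Pool.Agent.R352.Q.NI_box hk hx',
    Pool.Agent.R352.Q.Rk, ← Complex.ofReal_sub, Complex.ofReal_re]

/-- the differences `ζ(k) - F_k(y)` and `ζ(k) - R_k(x)` -/
noncomputable def diff (i : Name) : ℝ := zeta (weight i) - value i

/-- the numbers `e` and `L_1(y)` -/
noncomputable def base : Option {y : ℚ // y ≠ 0} → ℝ := fun o => o.elim (Real.exp 1) fun y => L 1 y

theorem main_AI : AlgebraicIndependent ℚ (Sum.elim diff base) := by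
  let f : Name ⊕ Option {y : ℚ // y ≠ 0} → Option Pool.Agent.V7H73.XI.VB := Sum.elim
    (Sum.elim (fun p => some (Sum.inr (Sum.inl (p.1.1 - 2, ⟨p.1.2, p.2.2⟩))))
      (fun p => some (Sum.inr (Sum.inr (p.1.1 - 2, ⟨p.1.2, p.2.2⟩)))))
    (fun o => o.map Sum.inl)
  have hf : Function.Injective f := by
    rintro ((⟨⟨a, b⟩, h⟩ | ⟨⟨a, b⟩, h⟩) | (_ | y)) ((⟨⟨a', b'⟩, h'⟩ | ⟨⟨a', b'⟩, h'⟩) | (_ | y')) hab <;>
      simp only [f, Sum.elim_inl, Sum.elim_inr, Option.map_none, Option.map_some, Option.some.injEq, Sum.inl.injEq,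
        Sum.inr.injEq, Prod.mk.injEq, Subtype.mk.injEq, reduceCtorEq] at hab
    · have h1 : a = a' := by have := h.1; have := h'.1; simp only at *; omega
      have h2 : b = b' := hab.2
      subst h1; subst h2; rfl
    · have h1 : a = a' := by have := h.1; have := h'.1; simp only at *; omega
      have h2 : b = b' := hab.2
      subst h1; subst h2; rfl
    · rfl
    · subst hab; rfl
  have h2 := Pool.Agent.V7H73.XI.AI_B.comp f hf
  convert h2 using 1
  funext o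
  rcases o with (p | p) | (_ | y)
  · show zeta p.1.1 - F p.1.1 p.1.2 = Pool.Agent.R352.E.zt (p.1.1 - 2 + 2) - Pool.Agent.V7H73.XI.Fi (p.1.1 - 2 + 2) p.1.2
    rw [Nat.sub_add_cancel p.2.1]
    rfl
  · show zeta p.1.1 - R p.1.1 p.1.2 = Pool.Agent.R352.Q.Zk (p.1.1 - 2 + 2) p.1.2
    rw [Nat.sub_add_cancel p.2.1, R_eq p.2.1 p.2.2, Pool.Agent.R352.Q.Rk]
    show Pool.Agent.R352.E.zt p.1.1 - (Pool.Agent.R352.E.zt p.1.1 - Pool.Agent.R352.Q.Zk p.1.1 p.1.2) = _
    ring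
  · rfl
  · rfl

theorem K₀_eq : K₀ = IntermediateField.adjoin ℚ (range base) := by
  rw [K₀]
  congr 1
  ext z
  constructor
  · rintro (rfl | ⟨y, hy, rfl⟩)
    · exact ⟨none, rfl⟩
    · exact ⟨some ⟨y, hy⟩, rfl⟩
  · rintro ⟨_ | y, rfl⟩
    · exact Or.inl rfl
    · exact Or.inr ⟨y, y.2, rfl⟩

theorem diff_eq (i : Name) : diff i = (fun i => zeta (weight i)) i - value i := rfl

/-- the names of the numbers `y_1, …, y_r` and `F_k(y)`, `R_k(x)` with `k ∈ K` which are algebraic over `K_0` -/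
def algebraicNames {r : ℕ} (y : Fin r → ℝ) (K : Set ℕ) : Set (Fin r ⊕ Name) :=
  {i | Sum.elim (fun j => IsAlgebraic K₀ (y j)) (fun n => weight n ∈ K ∧ IsAlgebraic K₀ (value n)) i}

theorem main_count {r : ℕ} (y : Fin r → ℝ) (K : Set ℕ)
    (hK : ∀ k ∈ K, IsAlgebraic (IntermediateField.adjoin K₀ (range y)) (zeta k)) :
    (algebraicNames y K).encard ≤ (r : ℕ∞) := by
  refine Pool.Agent.R352.E.encard_le_of_finset _ _ fun t ht => ?_
  rw [K₀_eq] at hK
  refine Pool.Agent.V7H73.XI.gen_count main_AI diff_eq y t (fun i hi => ?_) (fun i hi => ?_)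
  · exact hK _ (ht hi).1
  · have h1 := ht hi
    rw [← K₀_eq]
    cases i with
    | inl j => exact h1
    | inr p => exact h1.2

theorem main_trdeg {r : ℕ} (y : Fin r → ℝ) (K : Set ℕ)
    (hK : ∀ k ∈ K, IsAlgebraic (IntermediateField.adjoin K₀ (range y)) (zeta k))
    (S : Finset Name) (hS : ∀ n ∈ S, weight n ∈ K) :
    (S.card : Cardinal) ≤ Algebra.trdeg K₀ (IntermediateField.adjoin K₀ (range y ∪ value '' (S : Set Name))) := by
  rw [K₀_eq] at hK ⊢
  exact Pool.Agent.V7H73.XI.gen_trdeg main_AI diff_eq y S fun i hi => hK _ (hS i hi)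

theorem main_indep (K : Set ℕ) (hK : ∀ k ∈ K, IsAlgebraic K₀ (zeta k)) :
    AlgebraicIndependent ℚ (Sum.elim (fun n : {n : Name // weight n ∈ K} => value n) base) := by
  rw [K₀_eq] at hK
  exact Pool.Agent.V7H73.XI.gen_indep main_AI diff_eq {n : Name | weight n ∈ K} fun n hn => hK _ hn

theorem F_zero {k : ℕ} (hk : 2 ≤ k) : F k 0 = zeta k := Pool.Agent.V7H73.XI.Fi_zero hk

/-- the names of those of the numbers `F_3(y)` (`y` rational, `F_3(0) = ζ(3)`) and `R_3(x)` (`x` positive rational) which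
are algebraic over `K_0` -/
def namesThree : Set (ℚ ⊕ ℚ) :=
  {i | Sum.elim (fun y : ℚ => IsAlgebraic K₀ (F 3 y)) (fun x : ℚ => 0 < x ∧ IsAlgebraic K₀ (R 3 x)) i}

theorem three_count : namesThree.encard ≤ 1 := by
  classical
  have h := main_count (fun _ : Fin 1 => zeta 3) {3} (by
    rintro k rfl
    refine Pool.Agent.V7H73.XI.mem_ck.1 (Pool.Agent.V7H73.XI.subset_ck _ ⟨0, rfl⟩))
  let f : ℚ ⊕ ℚ → Fin 1 ⊕ Name := Sum.elim
    (fun y => if h : y = 0 then Sum.inl 0 else Sum.inr (Sum.inl ⟨(3, y), by norm_num, h⟩))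
    (fun x => if h : 0 < x then Sum.inr (Sum.inr ⟨(3, x), by norm_num, h⟩) else Sum.inl 0)
  have hf : InjOn f namesThree := by
    rintro (y | x) hi (y' | x') hi' hab
    · simp only [f, Sum.elim_inl] at hab
      by_cases h : y = 0 <;> by_cases h' : y' = 0
      · rw [h, h']
      · rw [dif_pos h, dif_neg h'] at hab
        exact absurd hab (by simp)
      · rw [dif_neg h, dif_pos h'] at hab
        exact absurd hab (by simp)
      · rw [dif_neg h, dif_neg h'] at hab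
        simp only [Sum.inr.injEq, Sum.inl.injEq, Subtype.mk.injEq, Prod.mk.injEq, true_and] at hab
        rw [hab]
    · have h' : 0 < x' := hi'.1
      simp only [f, Sum.elim_inl, Sum.elim_inr] at hab
      rw [dif_pos h'] at hab
      split_ifs at hab
      simp at hab
    · have h' : 0 < x := hi.1
      simp only [f, Sum.elim_inl, Sum.elim_inr] at hab
      rw [dif_pos h'] at hab
      split_ifs at hab
      simp at hab
    · have h1 : 0 < x := hi.1
      have h2 : 0 < x' := hi'.1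
      simp only [f, Sum.elim_inr] at hab
      rw [dif_pos h1, dif_pos h2] at hab
      simp only [Sum.inr.injEq, Subtype.mk.injEq, Prod.mk.injEq, true_and] at hab
      rw [hab]
  have h2 : f '' namesThree ⊆ algebraicNames (fun _ : Fin 1 => zeta 3) {3} := by
    rintro _ ⟨y | x, ho, rfl⟩
    · simp only [f, Sum.elim_inl]
      by_cases h : y = 0
      · rw [dif_pos h]
        have h3 : IsAlgebraic K₀ (F 3 (y : ℚ)) := ho
        rw [h, Rat.cast_zero, F_zero (by norm_num)] at h3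
        exact h3
      · rw [dif_neg h]
        exact ⟨rfl, ho⟩
    · have h1 : 0 < x := ho.1
      simp only [f, Sum.elim_inr]
      rw [dif_pos h1]
      exact ⟨rfl, ho.2⟩
  calc namesThree.encard = (f '' namesThree).encard := (hf.encard_image).symm
    _ ≤ _ := encard_le_encard h2
    _ ≤ 1 := by exact_mod_cast h

theorem constants_mem {c k : ℕ} (hk : 2 ≤ k) (h : Even k ∨ k ≤ 2 * c + 1) :
    IsAlgebraic (IntermediateField.adjoin K₀ (range (constants c))) (zeta k) := by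
  refine Pool.Agent.V7H73.XI.mem_ck.1 ?_
  have hpi : Real.pi ∈ Pool.Agent.V7H73.XI.ck K₀ (range (constants c)) :=
    Pool.Agent.V7H73.XI.subset_ck _ ⟨0, rfl⟩
  rcases Nat.even_or_odd' k with ⟨j, rfl | rfl⟩
  · exact Pool.Agent.V7H73.XI.zt_even_mem hpi j (by omega)
  · have h1 : 2 * j + 1 ≤ 2 * c + 1 := by
      rcases h with h | h
      · exact absurd h (by simp)
      · exact h
    refine Pool.Agent.V7H73.XI.subset_ck _ ⟨Fin.succ ⟨j - 1, by omega⟩, ?_⟩
    simp only [constants, Fin.cons_succ]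
    congr 1
    omega

/-! ### the larger field -/

/-- the differences `ζ(k) - F_k(x)` for positive `x` -/
noncomputable def diffPos (p : {p : ℕ × ℚ // 2 ≤ p.1 ∧ 0 < p.2}) : ℝ := zeta p.1.1 - F p.1.1 p.1.2

/-- the numbers `e` and `L_j(y)` -/
noncomputable def basePos : Option {p : ℕ × ℚ // 1 ≤ p.1 ∧ p.2 ≠ 0} → ℝ := fun o =>
  o.elim (Real.exp 1) fun p => L p.1.1 p.1.2

theorem main_AI' : AlgebraicIndependent ℚ (Sum.elim diffPos basePos) := by
  let f : {p : ℕ × ℚ // 2 ≤ p.1 ∧ 0 < p.2} ⊕ Option {p : ℕ × ℚ // 1 ≤ p.1 ∧ p.2 ≠ 0} → Option Pool.Agent.V7H73.XI.Vr :=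
    Sum.elim (fun p => some (Sum.inr (p.1.1 - 2, ⟨p.1.2, p.2.2⟩)))
      (fun o => o.map fun p => Sum.inl (p.1.1 - 1, ⟨p.1.2, p.2.2⟩))
  have hf : Function.Injective f := by
    rintro (⟨⟨a, b⟩, h⟩ | (_ | ⟨⟨a, b⟩, h⟩)) (⟨⟨a', b'⟩, h'⟩ | (_ | ⟨⟨a', b'⟩, h'⟩)) hab <;>
      simp only [f, Sum.elim_inl, Sum.elim_inr, Option.map_none, Option.map_some, Option.some.injEq, Sum.inl.injEq,
        Sum.inr.injEq, Prod.mk.injEq, Subtype.mk.injEq, reduceCtorEq] at hab
    · have h1 : a = a' := by have := h.1; have := h'.1; simp only at *; omega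
      have h2 : b = b' := hab.2
      subst h1; subst h2; rfl
    · rfl
    · have h1 : a = a' := by have := h.1; have := h'.1; simp only at *; omega
      have h2 : b = b' := hab.2
      subst h1; subst h2; rfl
  have h2 := Pool.Agent.V7H73.XI.AI_A.comp f hf
  convert h2 using 1
  funext o
  rcases o with p | (_ | p)
  · show zeta p.1.1 - F p.1.1 p.1.2 = Pool.Agent.R352.E.zt (p.1.1 - 2 + 2) - Pool.Agent.V7H73.XI.Fi (p.1.1 - 2 + 2) p.1.2
    rw [Nat.sub_add_cancel p.2.1]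
    rfl
  · rfl
  · show L p.1.1 p.1.2 = Pool.Agent.V7H73.XI.Lf (p.1.1 - 1 + 1) p.1.2
    rw [Nat.sub_add_cancel p.2.1]
    rfl

theorem K₁_eq : K₁ = IntermediateField.adjoin ℚ (range basePos) := by
  rw [K₁]
  congr 1
  ext z
  constructor
  · rintro (rfl | ⟨j, y, hj, hy, rfl⟩)
    · exact ⟨none, rfl⟩
    · exact ⟨some ⟨(j, y), hj, hy⟩, rfl⟩
  · rintro ⟨_ | y, rfl⟩
    · exact Or.inl rfl
    · exact Or.inr ⟨y.1.1, y.1.2, y.2.1, y.2.2, rfl⟩

theorem pos_indep : AlgebraicIndependent K₁ diffPos := by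
  rw [K₁_eq]
  exact Pool.Agent.V7H73.XI.gen_AI main_AI'

theorem pos_count : {x : ℚ | 0 ≤ x ∧ IsAlgebraic K₁ (F 3 x)}.encard ≤ 1 := by
  classical
  refine Pool.Agent.R352.E.encard_le_of_finset _ _ fun t ht => ?_
  let f : ℚ → Fin 1 ⊕ {p : ℕ × ℚ // 2 ≤ p.1 ∧ 0 < p.2} := fun x =>
    if h : 0 < x then Sum.inr ⟨(3, x), by norm_num, h⟩ else Sum.inl 0
  have hf : InjOn f (t : Set ℚ) := by
    intro x hx x' hx' hab
    have h1 := (ht hx).1
    have h2 := (ht hx').1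
    simp only [f] at hab
    split_ifs at hab with h h'
    · simp only [Sum.inr.injEq, Subtype.mk.injEq, Prod.mk.injEq, true_and] at hab
      exact hab
    · linarith [not_lt.1 h, not_lt.1 ‹¬0 < x'›]
  rw [← Finset.card_image_of_injOn hf]
  refine Pool.Agent.V7H73.XI.gen_count main_AI' (z := fun p => F p.1.1 p.1.2) (c := fun p => zeta p.1.1)
    (fun i => rfl) (fun _ : Fin 1 => zeta 3) _ (fun i hi => ?_) (fun i hi => ?_)
  · obtain ⟨x, hx, hxi⟩ := Finset.mem_image.1 hi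
    simp only [f] at hxi
    split_ifs at hxi with h
    simp only [Sum.inr.injEq] at hxi
    rw [← hxi]
    exact Pool.Agent.V7H73.XI.mem_ck.1 (Pool.Agent.V7H73.XI.subset_ck _ ⟨0, rfl⟩)
  · obtain ⟨x, hx, hxi⟩ := Finset.mem_image.1 hi
    obtain ⟨h1, h2⟩ := ht hx
    rw [← K₁_eq, ← hxi]
    simp only [f]
    by_cases h : 0 < x
    · rw [dif_pos h]
      exact h2
    · have hx0 : x = 0 := le_antisymm (not_lt.1 h) h1
      rw [dif_neg h]
      rw [hx0, Rat.cast_zero, F_zero (by norm_num)] at h2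
      exact h2

theorem result :
    -- (1)
    (∀ k : ℕ, 2 ≤ k → F k 0 = zeta k ∧ ∀ y : ℝ, HasSum (fun N : ℕ =>
      Real.exp (-y) * (y ^ N / N.factorial * ∑' n : ℕ, 1 / ((N : ℝ) + n + 1) ^ k)) (F k y)) ∧
    -- (2)
    AlgebraicIndependent ℚ (Sum.elim (fun n : Name => zeta (weight n) - value n) base) ∧
    -- (3)
    (namesThree.encard ≤ 1 ∧ ∀ K : Set ℕ, (∀ k ∈ K, IsAlgebraic K₀ (zeta k)) →
      AlgebraicIndependent ℚ (Sum.elim (fun n : {n : Name // weight n ∈ K} => value n) base)) ∧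
    -- (4)
    (∀ (r : ℕ) (y : Fin r → ℝ) (K : Set ℕ),
      (∀ k ∈ K, IsAlgebraic (IntermediateField.adjoin K₀ (range y)) (zeta k)) →
      (algebraicNames y K).encard ≤ (r : ℕ∞) ∧
      ∀ S : Finset Name, (∀ n ∈ S, weight n ∈ K) →
        (S.card : Cardinal) ≤
          Algebra.trdeg K₀ (IntermediateField.adjoin K₀ (range y ∪ value '' (S : Set Name)))) ∧
    -- (5)
    (∀ c : ℕ, (algebraicNames (constants c) {k | 2 ≤ k ∧ (Even k ∨ k ≤ 2 * c + 1)}).encard ≤
      ((c + 1 : ℕ) : ℕ∞)) ∧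
    -- (6)
    (AlgebraicIndependent K₁ (fun p : {p : ℕ × ℚ // 2 ≤ p.1 ∧ 0 < p.2} => zeta p.1.1 - F p.1.1 p.1.2) ∧
      {x : ℚ | 0 ≤ x ∧ IsAlgebraic K₁ (F 3 x)}.encard ≤ 1) := by
  refine ⟨fun k hk => ⟨F_zero hk, Pool.Agent.V7H73.XI.hasSum_Fi' hk⟩, main_AI, ⟨three_count, main_indep⟩,
    fun r y K hK => ⟨main_count y K hK, main_trdeg y K hK⟩, fun c => ?_, pos_indep, pos_count⟩
  exact main_count (constants c) _ fun k hk => constants_mem hk.1 hk.2

end Pool.Agent.Results.MP_48b3e2_nt.ExponentialDeformationsH73
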