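import Mathlib
import Pool.Agent.R352.E.Cnt
import Pool.Agent.V7H31.IG.Lim
import Pool.Agent.V7H31.IG.Hur

set_option autoImplicit false

/-!
# `ζ(3)` and the logarithmic derivatives of the regularised incomplete gamma function

Let `γ(s, x) = ∫_0^x t^(s-1) exp(-t) dt` be the lower incomplete gamma function and
`P(s, x) = γ(s, x) / Γ(s)` the regularised one. For an integer `k ≥ 2` and positive rational
numbers `a`, `x` let `κ_k(a, x)` and `L_k(a, x)` be the `k`-th derivatives of `s ↦ log γ(s, x)` and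
`s ↦ log P(s, x)` at `s = a`. So `κ_k(1, x)` is the `k`-th cumulant of `log T`, where `T` is an
exponential random variable conditioned on `T < x`; the third cumulant of the unconditioned `log T`
(a Gumbel variable, up to sign) is `-2 ζ(3)`.

(1) `L_k(a, x) = κ_k(a, x) - (-1)^k (k-1)! ζ(k, a)` with the Hurwitz zeta value `ζ(k, a)`, and
`L_k(a, x) → 0` as `x → ∞`. In particular `2 ζ(3) = L_3(1, x) - κ_3(1, x)` and
`14 ζ(3) = L_3(1/2, x) - κ_3(1/2, x)`.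

(2) The number `e` and all the numbers `κ_k(a, x)` (`k ≥ 2`, `0 < a ≤ 1` rational, `x > 0` rational)
are algebraically independent over `ℚ`.

(3) At most one of the numbers `ζ(3)`, `L_3(1, x)`, `L_3(1/2, x)` (`x > 0` rational) is algebraic over
`ℚ(e)`. If `ζ(3)` is algebraic over `ℚ(e)`, then `e` and all the numbers `L_3(1, x)`, `L_3(1/2, x)`
are algebraically independent over `ℚ`.

(4) Let `y_1, …, y_r` be real numbers and let `K` be a set of pairs `(k, a)` (`k ≥ 2`, `0 < a ≤ 1`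
rational) for which `ζ(k, a)` is algebraic over `ℚ(e, y_1, …, y_r)`. At most `r` of the numbers
`y_1, …, y_r` and `L_k(a, x)` (`(k, a) ∈ K`, `x > 0` rational) are algebraic over `ℚ(e)`, and for
each finite set `S` of such triples `(k, a, x)` the field `ℚ(e, y_1, …, y_r, L_k(a, x) : (k, a, x) ∈ S)` has
transcendence degree at least `|S| + 1`.

(5) For `c ≥ 0` at most `c + 1` of the numbers `π, ζ(3), ζ(5), …, ζ(2c+1)` and `L_k(a, x)`, where
`0 < a ≤ 1` and `x > 0` are rational and either `k` is odd, `3 ≤ k ≤ 2c + 1` and `a` has denominator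
`1, 2, 3, 4` or `6`, or `k ≥ 2` is even and `a` has denominator `1` or `2`, are algebraic over `ℚ(e)`. For
`c = 1`: at most two of the numbers `π`, `ζ(3)` and `L_3(a, x)`, `a` of denominator `1, 2, 3, 4` or `6`.
-/

namespace Pool.Agent.Results.MP_48b3e2_nt.IncompleteGammaH31

open Set MeasureTheory Filter Topology

/-- the zeta value `ζ(k) = ∑ 1 / n^k` -/
noncomputable def zeta (k : ℕ) : ℝ := ∑' n : ℕ, 1 / ((n : ℝ) + 1) ^ k

/-- the Hurwitz zeta value `ζ(k, a) = ∑_{n ≥ 0} 1 / (n + a)^k` -/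
noncomputable def hurwitz (k : ℕ) (a : ℚ) : ℝ := ∑' n : ℕ, 1 / ((n : ℝ) + a) ^ k

/-- the lower incomplete gamma function `γ(s, x)` -/
noncomputable def lowerGamma (s x : ℝ) : ℝ := ∫ t in (0 : ℝ)..x, t ^ (s - 1) * Real.exp (-t)

/-- the regularised incomplete gamma function `P(s, x)` -/
noncomputable def regGamma (s x : ℝ) : ℝ := lowerGamma s x / Real.Gamma s

/-- `κ_k(a, x)`: the `k`-th derivative of `s ↦ log γ(s, x)` at `s = a` -/
noncomputable def kappa (k : ℕ) (a x : ℚ) : ℝ := iteratedDeriv k (fun s : ℝ => Real.log (lowerGamma s x)) a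

/-- `L_k(a, x)`: the `k`-th derivative of `s ↦ log P(s, x)` at `s = a` -/
noncomputable def L (k : ℕ) (a x : ℚ) : ℝ := iteratedDeriv k (fun s : ℝ => Real.log (regGamma s x)) a

/-- `z` is algebraic over `ℚ(e, y_1, …, y_r)` -/
def AlgebraicOverEAnd {r : ℕ} (y : Fin r → ℝ) (z : ℝ) : Prop :=
  IsAlgebraic (IntermediateField.adjoin ℚ ({Real.exp 1} ∪ range y)) z

/-- `z` is algebraic over `ℚ(e)` -/
def AlgebraicOverE (z : ℝ) : Prop := IsAlgebraic (IntermediateField.adjoin ℚ {Real.exp 1}) z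

/-- the set of names of those of the numbers `y_1, …, y_r` and `L_k(a, x)` (`(k, a) ∈ K`, `x` positive
rational) which are algebraic over `ℚ(e)` -/
def algebraicNames {r : ℕ} (y : Fin r → ℝ) (K : Set (ℕ × ℚ)) : Set (Fin r ⊕ (ℕ × ℚ × ℚ)) :=
  {i | Sum.elim (fun j => AlgebraicOverE (y j))
    (fun p => (p.1, p.2.1) ∈ K ∧ 0 < p.2.2 ∧ AlgebraicOverE (L p.1 p.2.1 p.2.2)) i}

/-- the set of names of those of the numbers `ζ(3)` and `L_3(1, x)`, `L_3(1/2, x)` (`x` positive rational)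
which are algebraic over `ℚ(e)`; `some (a, x)` is the name of `L_3(a, x)` -/
def namesThree : Set (Option (ℚ × ℚ)) :=
  {o | o.elim (AlgebraicOverE (zeta 3)) fun p =>
    (p.1 = 1 ∨ p.1 = 1 / 2) ∧ 0 < p.2 ∧ AlgebraicOverE (L 3 p.1 p.2)}

/-- the numbers `π, ζ(3), ζ(5), …, ζ(2c+1)` -/
noncomputable def constants (c : ℕ) : Fin (c + 1) → ℝ := Fin.cons Real.pi fun i : Fin c => zeta (2 * i + 3)

/-- the pairs `(k, a)` of clause (5) -/
def pairs (c : ℕ) : Set (ℕ × ℚ) :=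
  {p | 2 ≤ p.1 ∧ 0 < p.2 ∧ p.2 ≤ 1 ∧
    ((Odd p.1 ∧ p.1 ≤ 2 * c + 1 ∧ p.2.den ∈ ({1, 2, 3, 4, 6} : Set ℕ)) ∨
      (Even p.1 ∧ p.2.den ∈ ({1, 2} : Set ℕ)))}

theorem hurwitz_eq (k : ℕ) (a : ℚ) : hurwitz k a = Pool.Agent.V7H31.IG.hz k a := rfl

theorem zeta_eq (k : ℕ) : zeta k = Pool.Agent.R352.E.zt k := rfl

theorem kappa_eq (k : ℕ) (a x : ℚ) : kappa k a x = Pool.Agent.V7H31.IG.ka k a x := rfl

theorem L_eq (k : ℕ) (a x : ℚ) : L k a x = Pool.Agent.V7H31.IG.La k a x := rfl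

theorem rel {k : ℕ} (hk : 2 ≤ k) {a x : ℚ} (ha : 0 < a) (hx : 0 < x) :
    L k a x = kappa k a x - (-1) ^ k * (k - 1).factorial * hurwitz k a :=
  Pool.Agent.V7H31.IG.La_eq hk (by exact_mod_cast ha) (by exact_mod_cast hx)

theorem hurwitz_one (k : ℕ) : hurwitz k 1 = zeta k := by
  rw [hurwitz_eq]
  push_cast
  exact Pool.Agent.V7H31.IG.hz_one k

theorem hurwitz_half {k : ℕ} (hk : 2 ≤ k) : hurwitz k (1 / 2) = (2 ^ k - 1) * zeta k := by
  rw [hurwitz_eq]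
  push_cast
  exact Pool.Agent.V7H31.IG.hz_half hk

theorem tends {k : ℕ} (hk : 2 ≤ k) {a : ℚ} (ha : 0 < a) : Tendsto (fun x : ℚ => L k a x) atTop (𝓝 0) := by
  have h1 := Pool.Agent.V7H31.IG.La_tendsto (a := (a : ℝ)) (by exact_mod_cast ha) k hk
  have h2 : Tendsto (fun x : ℚ => (x : ℝ)) atTop atTop := tendsto_ratCast_atTop_iff.2 tendsto_id
  exact h1.comp h2

theorem main {r : ℕ} (y : Fin r → ℝ) (K : Set (ℕ × ℚ))
    (hK : ∀ p ∈ K, 2 ≤ p.1 ∧ 0 < p.2 ∧ p.2 ≤ 1 ∧ AlgebraicOverEAnd y (hurwitz p.1 p.2)) :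
    (algebraicNames y K).encard ≤ (r : ℕ∞) := by
  refine Pool.Agent.R352.E.encard_le_of_finset _ _ fun t ht => ?_
  refine Pool.Agent.V7H31.IG.countR y t (fun i hi => ?_) (fun p hp => ?_)
  · have h1 := ht hi
    cases i with
    | inl j => exact Pool.Agent.R352.E.mem_clF.2 h1
    | inr p => exact Pool.Agent.R352.E.mem_clF.2 h1.2.2
  · obtain ⟨h2, h3, -⟩ := ht hp
    obtain ⟨g1, g2, g3, g4⟩ := hK _ h2
    exact ⟨⟨g1, g2, g3, h3⟩, Pool.Agent.R352.E.mem_clF.2 g4⟩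

theorem main_trdeg {r : ℕ} (y : Fin r → ℝ) (K : Set (ℕ × ℚ))
    (hK : ∀ p ∈ K, 2 ≤ p.1 ∧ 0 < p.2 ∧ p.2 ≤ 1 ∧ AlgebraicOverEAnd y (hurwitz p.1 p.2))
    (S : Finset (ℕ × ℚ × ℚ)) (hS : ∀ p ∈ S, (p.1, p.2.1) ∈ K ∧ 0 < p.2.2) :
    ((S.card + 1 : ℕ) : Cardinal) ≤ Algebra.trdeg ℚ (IntermediateField.adjoin ℚ
      ({Real.exp 1} ∪ range y ∪ (fun p : ℕ × ℚ × ℚ => L p.1 p.2.1 p.2.2) '' (S : Set (ℕ × ℚ × ℚ)))) := by
  refine Pool.Agent.V7H31.IG.trdegR y S fun p hp => ?_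
  obtain ⟨h2, h3⟩ := hS p hp
  obtain ⟨g1, g2, g3, g4⟩ := hK _ h2
  exact ⟨⟨g1, g2, g3, h3⟩, Pool.Agent.R352.E.mem_clF.2 g4⟩

theorem mem_three {T : Set ℝ} (h : zeta 3 ∈ Pool.Agent.R352.E.clF T) {a : ℚ} (ha : a = 1 ∨ a = 1 / 2) :
    hurwitz 3 a ∈ Pool.Agent.R352.E.clF T := by
  rcases ha with rfl | rfl
  · rw [hurwitz_one]; exact h
  · rw [hurwitz_half (by norm_num)]
    refine (Pool.Agent.R352.E.clF T).mul_mem ?_ h
    have h7 : ((2 : ℝ) ^ 3 - 1) = ((7 : ℕ) : ℝ) := by norm_num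
    rw [h7]
    exact natCast_mem _ _

theorem a_prop {a : ℚ} (ha : a = 1 ∨ a = 1 / 2) : 0 < a ∧ a ≤ 1 := by
  rcases ha with rfl | rfl <;> norm_num

theorem three_count : namesThree.encard ≤ 1 := by
  have h := main (fun _ : Fin 1 => zeta 3) {p | p.1 = 3 ∧ (p.2 = 1 ∨ p.2 = 1 / 2)} (by
    rintro ⟨k, a⟩ ⟨hk, ha⟩
    simp only at hk ha
    subst hk
    exact ⟨by norm_num, (a_prop ha).1, (a_prop ha).2, Pool.Agent.R352.E.mem_clF.1
      (mem_three (Pool.Agent.R352.E.subset_clF _ (Or.inr ⟨0, rfl⟩)) ha)⟩)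
  let f : Option (ℚ × ℚ) → Fin 1 ⊕ (ℕ × ℚ × ℚ) := fun o => o.elim (Sum.inl 0) fun p => Sum.inr (3, p.1, p.2)
  have hf : Function.Injective f := by
    intro a b hab
    cases a <;> cases b <;> simp_all [f, Prod.ext_iff]
  have h2 : f '' namesThree ⊆ algebraicNames (fun _ : Fin 1 => zeta 3) {p | p.1 = 3 ∧ (p.2 = 1 ∨ p.2 = 1 / 2)} := by
    rintro _ ⟨o, ho, rfl⟩
    cases o with
    | none => exact ho
    | some x => exact ⟨⟨rfl, ho.1⟩, ho.2.1, ho.2.2⟩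
  calc namesThree.encard = (f '' namesThree).encard := (hf.encard_image _).symm
    _ ≤ _ := encard_le_encard h2
    _ ≤ 1 := by exact_mod_cast h

theorem three_indep (h : AlgebraicOverE (zeta 3)) :
    AlgebraicIndependent ℚ (fun o : Option {p : ℚ × ℚ // (p.1 = 1 ∨ p.1 = 1 / 2) ∧ 0 < p.2} =>
      o.elim (Real.exp 1) fun p => L 3 p.1.1 p.1.2) := by
  have h1 := Pool.Agent.V7H31.IG.AI_R {p | p.1 = 3 ∧ (p.2 = 1 ∨ p.2 = 1 / 2)} (by
    rintro ⟨k, a⟩ ⟨hk, ha⟩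
    simp only at hk ha
    subst hk
    exact ⟨by norm_num, (a_prop ha).1, (a_prop ha).2, mem_three (Pool.Agent.R352.E.mem_clF.2 h) ha⟩)
  let f : Option {p : ℚ × ℚ // (p.1 = 1 ∨ p.1 = 1 / 2) ∧ 0 < p.2} → Option {p : ℕ × ℚ × ℚ //
      (p.1, p.2.1) ∈ ({p | p.1 = 3 ∧ (p.2 = 1 ∨ p.2 = 1 / 2)} : Set (ℕ × ℚ)) ∧ 0 < p.2.2} :=
    Option.map fun p => ⟨(3, p.1.1, p.1.2), ⟨rfl, p.2.1⟩, p.2.2⟩
  have hf : Function.Injective f := by
    refine Option.map_injective ?_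
    intro a b hab
    simp only [Subtype.mk.injEq, Prod.mk.injEq, true_and] at hab
    exact Subtype.ext (Prod.ext hab.1 hab.2)
  have h2 := h1.comp f hf
  convert h2 using 1
  ext o
  cases o <;> rfl

theorem den_cases {a : ℚ} (ha : 0 < a) (ha1 : a ≤ 1) (hd : a.den ∈ ({1, 2} : Set ℕ)) : a = 1 ∨ a = 1 / 2 := by
  have hnum : 0 < a.num := Rat.num_pos.2 ha
  have hle : a.num ≤ a.den := by
    have := Rat.le_iff a 1
    simp at this
    exact this.1 ha1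
  have ha' : a = a.num / a.den := (Rat.num_div_den a).symm
  have hcop := a.reduced
  simp only [mem_insert_iff, mem_singleton_iff] at hd
  rcases hd with hd | hd <;> rw [hd] at ha' hle hcop <;> push_cast at ha' hle
  · have : a.num = 1 := by omega
    rw [this] at ha'; left; rw [ha']; norm_num
  · have : a.num = 1 ∨ a.num = 2 := by omega
    rcases this with h | h <;> rw [h] at ha' hcop
    · right; rw [ha']; norm_num
    · exact absurd hcop (by decide)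

theorem constants_mem {c : ℕ} {p : ℕ × ℚ} (hp : p ∈ pairs c) :
    AlgebraicOverEAnd (constants c) (hurwitz p.1 p.2) := by
  refine Pool.Agent.R352.E.mem_clF.1 ?_
  have hpi : Real.pi ∈ Pool.Agent.R352.E.clF ({Real.exp 1} ∪ range (constants c)) :=
    Pool.Agent.R352.E.subset_clF _ (Or.inr ⟨0, rfl⟩)
  obtain ⟨k, a⟩ := p
  obtain ⟨hk, ha, ha1, h⟩ := hp
  simp only at hk ha ha1 h
  rcases h with ⟨hodd, hkc, hd⟩ | ⟨heven, hd⟩
  · obtain ⟨j, rfl⟩ := hodd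
    have hj : j ≠ 0 := by omega
    refine Pool.Agent.V7H31.IG.small_den hpi hj ?_ ha ha1 hd
    refine Pool.Agent.R352.E.subset_clF _ (Or.inr ⟨Fin.succ ⟨j - 1, by omega⟩, ?_⟩)
    simp only [constants, Fin.cons_succ]
    rw [zeta_eq]
    congr 1
    omega
  · obtain ⟨j, rfl⟩ := heven.exists_two_nsmul
    have hj : j ≠ 0 := by
      rintro rfl
      simp at hk
    have h2 : Pool.Agent.R352.E.zt (2 • j) ∈ Pool.Agent.R352.E.clF ({Real.exp 1} ∪ range (constants c)) := by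
      rw [smul_eq_mul]
      exact Pool.Agent.R352.E.zt_even hpi j hj
    rcases den_cases ha ha1 hd with rfl | rfl
    · simp only [hurwitz_one]
      exact h2
    · simp only [hurwitz_half hk]
      refine (Pool.Agent.R352.E.clF _).mul_mem ((Pool.Agent.R352.E.clF _).sub_mem
        ((Pool.Agent.R352.E.clF _).pow_mem ?_ _) (Pool.Agent.R352.E.clF _).one_mem) h2
      exact_mod_cast natCast_mem (Pool.Agent.R352.E.clF ({Real.exp 1} ∪ range (constants c))) 2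

theorem result :
    -- (1)
    ((∀ k : ℕ, 2 ≤ k → ∀ a : ℚ, 0 < a →
        (∀ x : ℚ, 0 < x → L k a x = kappa k a x - (-1) ^ k * (k - 1).factorial * hurwitz k a) ∧
        Tendsto (fun x : ℚ => L k a x) atTop (𝓝 0)) ∧
      ∀ x : ℚ, 0 < x → 2 * zeta 3 = L 3 1 x - kappa 3 1 x ∧ 14 * zeta 3 = L 3 (1 / 2) x - kappa 3 (1 / 2) x) ∧
    -- (2)
    AlgebraicIndependent ℚ (fun o : Option {p : ℕ × ℚ × ℚ // 2 ≤ p.1 ∧ 0 < p.2.1 ∧ p.2.1 ≤ 1 ∧ 0 < p.2.2} =>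
      o.elim (Real.exp 1) fun p => kappa p.1.1 p.1.2.1 p.1.2.2) ∧
    -- (3)
    (namesThree.encard ≤ 1 ∧ (AlgebraicOverE (zeta 3) →
      AlgebraicIndependent ℚ (fun o : Option {p : ℚ × ℚ // (p.1 = 1 ∨ p.1 = 1 / 2) ∧ 0 < p.2} =>
        o.elim (Real.exp 1) fun p => L 3 p.1.1 p.1.2))) ∧
    -- (4)
    (∀ (r : ℕ) (y : Fin r → ℝ) (K : Set (ℕ × ℚ)),
      (∀ p ∈ K, 2 ≤ p.1 ∧ 0 < p.2 ∧ p.2 ≤ 1 ∧ AlgebraicOverEAnd y (hurwitz p.1 p.2)) →
      (algebraicNames y K).encard ≤ (r : ℕ∞) ∧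
      ∀ S : Finset (ℕ × ℚ × ℚ), (∀ p ∈ S, (p.1, p.2.1) ∈ K ∧ 0 < p.2.2) →
        ((S.card + 1 : ℕ) : Cardinal) ≤ Algebra.trdeg ℚ (IntermediateField.adjoin ℚ
          ({Real.exp 1} ∪ range y ∪ (fun p : ℕ × ℚ × ℚ => L p.1 p.2.1 p.2.2) '' (S : Set (ℕ × ℚ × ℚ))))) ∧
    -- (5)
    (∀ c : ℕ, (algebraicNames (constants c) (pairs c)).encard ≤ ((c + 1 : ℕ) : ℕ∞)) := by
  refine ⟨⟨fun k hk a ha => ⟨fun x hx => rel hk ha hx, tends hk ha⟩, fun x hx => ⟨?_, ?_⟩⟩, ?_,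
    ⟨three_count, three_indep⟩, fun r y K hK => ⟨main y K hK, main_trdeg y K hK⟩, fun c => ?_⟩
  · rw [rel (by norm_num) one_pos hx, hurwitz_one]
    norm_num [Nat.factorial]
  · rw [rel (by norm_num) (by norm_num) hx, hurwitz_half (by norm_num)]
    norm_num [Nat.factorial]
    ring
  · exact Pool.Agent.V7H31.IG.AI_ka
  · exact main (constants c) _ fun p hp => ⟨hp.1, hp.2.1, hp.2.2.1, constants_mem hp⟩

end Pool.Agent.Results.MP_48b3e2_nt.IncompleteGammaH31
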