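import Mathlib
import Pool.Agent.V7H81.ZT.B

/-!
# `ζ(3)` and the tails of its triple integral: algebraic approximations at all scales

Let `R(x) = 1/12 ∫ log (t_1 t_2 / t_3²)³ exp (-t_1 - t_2 - t_3) dt`, the integral being over the points of the positive
octant with `max t_i ≥ x`; so `ζ(3) = C(x) + R(x)`, where `C(x)` is the same integral over the cube `(0, x)³`. It is
known (`IncompleteZetaValues`) that at most one of the numbers `ζ(3)` and `R(x)`, `x` positive rational, is
algebraic. Here we prove a quantitative form of this, at every scale. Let `x_1, …, x_n` be different positive rational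
numbers and let `z_0, …, z_n` be the numbers `ζ(3), R(x_1), …, R(x_n)`.

(1) Joint measure: for `i ≠ j` and every `d` there are `κ, c > 0` with `max (|P(z_i)|, |Q(z_j)|) ≥ c H ^ (-κ)` for all
nonzero integer polynomials `P`, `Q` of degree at most `d` with coefficients at most `H` in absolute value. In
particular, if one of the numbers is algebraic, then each of the others has a measure of transcendence of this kind.

(2) Scale dichotomy (`Pool.Agent.N743.Dichotomy`): say that `z` is near at the scale `X` if some nonzero integer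
polynomial `P` of degree at most `d` with coefficients at most `X ^ θ` has `|P(z)| ≤ 1 / X`. For all `d` and `M > 1`
there is `θ₀ > 0` such that for all `0 < θ ≤ θ₀`: at every large scale at most one of the `n + 1` numbers is
near; if one of them is algebraic of degree at most `d`, then it is near at all large scales and the others are near
at no large scale; otherwise every large scale `X` at which `z_i` is near is followed by a scale `Z ≥ X` such that
between `X` and `Z` only `z_i` can be near, and between `Z` and `Z ^ M` none of the numbers is near, and there are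
arbitrarily large such `Z`.

(3) The number of all pairs `(i, P)`, `P` an irreducible polynomial of degree at most `d` and height `h(P)` at most `X`
with `|P(z_i)| ≤ h(P) ^ (-w)`, is at most `log log X / log ρ + C`, for the whole family together, if `1 < ρ < w / κ`,
`κ = κ(d)`.

Proof: `C(x) = 3 (1 - e^(-x))² E_3(x) - 3 (1 - e^(-x)) E_1(x) E_2(x) + E_1(x)³` for the E-functions
`E_l(x) = ∑_{n ≥ 1} (-1)^(n+1) x^n / (n! n^l)`, whose values have a measure of algebraic independence
(`Pool.Agent.N743.SS.measM_EE`), and elimination (`Pool.Agent.N743.SS.jointR_lin`).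
-/

set_option autoImplicit false

namespace Pool.Agent.Results.MP_48b3e2_nt.ScaleDichotomyH81

open Set MeasureTheory Polynomial
open Pool.Agent.N743 (AlgDeg AlgNear Dichotomy)

/-- `ζ(3)` -/
noncomputable def zeta3 : ℝ := ∑' n : ℕ, 1 / ((n : ℝ) + 1) ^ 3

/-- the open cube `(0, x)³` -/
def cube (x : ℝ) : Set (Fin 3 → ℝ) := {t | ∀ j, 0 < t j ∧ t j < x}

/-- the points of the positive octant with a coordinate `≥ x` -/
def rest (x : ℝ) : Set (Fin 3 → ℝ) := {t | (∀ j, 0 < t j) ∧ ∃ j, x ≤ t j}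

/-- `C(x)` -/
noncomputable def C (x : ℝ) : ℝ :=
  1 / 12 * ∫ t in cube x, Real.log (t 0 * t 1 / t 2 ^ 2) ^ 3 * Real.exp (-(t 0 + t 1 + t 2))

/-- `R(x)` -/
noncomputable def R (x : ℝ) : ℝ :=
  1 / 12 * ∫ t in rest x, Real.log (t 0 * t 1 / t 2 ^ 2) ^ 3 * Real.exp (-(t 0 + t 1 + t 2))

/-- the numbers `ζ(3), R(x_1), …, R(x_n)` -/
noncomputable def number {n : ℕ} (x : Fin n → ℚ) : Option (Fin n) → ℝ
  | none => zeta3
  | some i => R (x i)

/-- the height of a polynomial: the maximum of the absolute values of its coefficients -/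
def height (P : ℤ[X]) : ℕ := P.support.sup fun i => (P.coeff i).natAbs

/-- the pairs `(i, P)`, `P` irreducible of degree at most `d` with positive leading coefficient and height at most `X`,
with `|P(z_i)| ≤ h(P) ^ (-w)` -/
def close {n : ℕ} (x : Fin n → ℚ) (d : ℕ) (w X : ℝ) : Set (Option (Fin n) × ℤ[X]) :=
  {p | Irreducible p.2 ∧ p.2.natDegree ≤ d ∧ 0 < p.2.leadingCoeff ∧
    |aeval (number x p.1) p.2| ≤ (height p.2 : ℝ) ^ (-w) ∧ (height p.2 : ℝ) ≤ X}

theorem cube_eq (x : ℝ) : cube x = Pool.Agent.R352.Q.cube 3 (Ioo 0 x) := by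
  ext t
  simp [cube, Pool.Agent.R352.Q.cube]

theorem rest_eq (x : ℝ) :
    rest x = Pool.Agent.R352.Q.cube 3 (Ioi 0) \ Pool.Agent.R352.Q.cube 3 (Ioo 0 x) := by
  ext t
  simp only [rest, Pool.Agent.R352.Q.cube, mem_sdiff, mem_univ_pi, mem_Ioi, mem_Ioo]
  constructor
  · rintro ⟨h1, j, h2⟩
    exact ⟨h1, fun h => absurd (h j).2 (not_lt.2 h2)⟩
  · rintro ⟨h1, h2⟩
    push Not at h2
    obtain ⟨j, hj⟩ := h2
    exact ⟨h1, j, hj (h1 j)⟩

theorem C_eq {x : ℝ} (hx : 0 < x) : C x = Pool.Agent.R352.Q.Zk 3 x := by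
  rw [C, cube_eq, Pool.Agent.V7H81.ZT.three_box hx]
  ring

theorem R_eq {x : ℝ} (hx : 0 < x) : R x = Pool.Agent.R352.Q.Rk 3 x := by
  rw [R, rest_eq, Pool.Agent.R352.Q.three_rest hx]
  ring

theorem number_eq {n : ℕ} (x : Fin n → ℚ) (hx : ∀ i, 0 < x i) : number x = Pool.Agent.V7H81.ZT.fam x := by
  funext o
  cases o with
  | none => rfl
  | some i =>
    have h : (0 : ℝ) < x i := by exact_mod_cast hx i
    exact R_eq h

theorem joint {n : ℕ} (x : Fin n → ℚ) (hx : ∀ i, 0 < x i) (hinj : Function.Injective x) (i j : Option (Fin n))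
    (hij : i ≠ j) : Pool.Agent.R356.JointR (number x i) (number x j) := by
  rw [number_eq x hx]
  exact Pool.Agent.V7H81.ZT.joint_fam x hx hinj i j hij

/-- **`ζ(3)` and the tails of its triple integral: algebraic approximations at all scales** -/
theorem result :
    (∀ x : ℝ, 0 < x → zeta3 = C x + R x) ∧
    ∀ (n : ℕ) (x : Fin n → ℚ), (∀ i, 0 < x i) → Function.Injective x →
      -- (1)
      (∀ i j : Option (Fin n), i ≠ j → ∀ d : ℕ, ∃ κ c : ℝ, 0 < κ ∧ 0 < c ∧ ∀ P Q : ℤ[X], P ≠ 0 → Q ≠ 0 →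
        P.natDegree ≤ d → Q.natDegree ≤ d → ∀ H : ℝ, (∀ k, |((P.coeff k : ℤ) : ℝ)| ≤ H) →
        (∀ k, |((Q.coeff k : ℤ) : ℝ)| ≤ H) → c * H ^ (-κ) ≤ max |aeval (number x i) P| |aeval (number x j) Q|) ∧
      (∀ i j : Option (Fin n), i ≠ j → IsAlgebraic ℤ (number x i) → ∀ d : ℕ, ∃ κ c : ℝ, 0 < κ ∧ 0 < c ∧
        ∀ Q : ℤ[X], Q ≠ 0 → Q.natDegree ≤ d → ∀ H : ℝ, (∀ k, |((Q.coeff k : ℤ) : ℝ)| ≤ H) →
        c * H ^ (-κ) ≤ |aeval (number x j) Q|) ∧
      -- (2)
      (∀ (d : ℕ) (M : ℝ), 1 < M → ∃ θ₀ : ℝ, 0 < θ₀ ∧ ∀ θ : ℝ, 0 < θ → θ ≤ θ₀ →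
        Dichotomy (fun i => AlgDeg d (number x i)) (fun X i => AlgNear d θ X (number x i)) M) ∧
      -- (3)
      (∀ d : ℕ, ∃ κ : ℝ, 0 < κ ∧ ∀ w ρ : ℝ, 1 < ρ → ρ < w / κ → ∃ B : ℝ, ∀ X : ℝ, 3 ≤ X →
        (close x d w X).Finite ∧ ((close x d w X).ncard : ℝ) ≤ Real.log (Real.log X) / Real.log ρ + B) := by
  refine ⟨fun x hx => ?_, fun n x hx hinj => ⟨fun i j hij => joint x hx hinj i j hij, fun i j hij hi d => ?_,
    fun d M hM => ?_, fun d => ?_⟩⟩
  · rw [C_eq hx, R_eq hx, Pool.Agent.R352.Q.Rk, zeta3, Pool.Agent.R352.E.zt]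
    ring
  · obtain ⟨P, hP, hP0⟩ := hi
    obtain ⟨κ, c, hκ, hc, h⟩ := joint x hx hinj i j hij (max d P.natDegree)
    obtain ⟨A, hA⟩ : ∃ A : ℝ, A = ∑ k ∈ P.support, |((P.coeff k : ℤ) : ℝ)| := ⟨_, rfl⟩
    have hA0 : ∀ k, |((P.coeff k : ℤ) : ℝ)| ≤ A := by
      intro k
      by_cases hk : k ∈ P.support
      · rw [hA]
        exact Finset.single_le_sum (f := fun k => |((P.coeff k : ℤ) : ℝ)|) (fun _ _ => abs_nonneg _) hk
      · rw [notMem_support_iff.1 hk, hA]
        simp only [Int.cast_zero, abs_zero]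
        exact Finset.sum_nonneg fun _ _ => abs_nonneg _
    have hA1 := Pool.Agent.R356.one_le_of_coeff P hP A hA0
    refine ⟨κ, c * A ^ (-κ), hκ, by positivity, fun Q hQ hQd H hH => ?_⟩
    have hH1 := Pool.Agent.R356.one_le_of_coeff Q hQ H hH
    have h1 := h P Q hP hQ (le_max_right _ _) (hQd.trans (le_max_left _ _)) (A * H)
      (fun k => (hA0 k).trans (le_mul_of_one_le_right (by linarith) hH1))
      (fun k => (hH k).trans (le_mul_of_one_le_left (by linarith) hA1))
    rw [hP0, abs_zero, max_eq_right (abs_nonneg _), Real.mul_rpow (by linarith) (by linarith), ← mul_assoc] at h1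
    exact h1
  · exact Pool.Agent.N743.dichotomy_alg (number x) (joint x hx hinj) d M hM
  · obtain ⟨κ, hκ, h⟩ := Pool.Agent.R356.sparse_joint (Finset.univ : Finset (Option (Fin n))) (number x)
      (fun i _ j _ hij => joint x hx hinj i j hij) d
    refine ⟨κ, hκ, fun w ρ hρ hρw => ?_⟩
    obtain ⟨B, hB⟩ := h w ρ hρ hρw
    refine ⟨B, fun X hX => ?_⟩
    have h2 := hB X hX
    have e : {p : Option (Fin n) × ℤ[X] | p.1 ∈ (Finset.univ : Finset (Option (Fin n))) ∧ Irreducible p.2 ∧
        p.2.natDegree ≤ d ∧ 0 < p.2.leadingCoeff ∧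
        |aeval (number x p.1) p.2| ≤ (Pool.Agent.TH456.TM.ht p.2 : ℝ) ^ (-w) ∧
        (Pool.Agent.TH456.TM.ht p.2 : ℝ) ≤ X} = close x d w X := by
      ext p
      simp only [mem_setOf_eq, close, Finset.mem_univ, true_and]
      rfl
    rw [e] at h2
    exact h2

end Pool.Agent.Results.MP_48b3e2_nt.ScaleDichotomyH81
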